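import Pool.Agent.R942.DC.Main

/-!
# Semisimplicity of Frobenius on elliptic surfaces and hyperelliptic fibrations `y² = f(x, t)`

Let `κ` be a finite field with `q` elements, `q` odd, and let
`f = x ^ r + a_(r - 1) x ^ (r - 1) + ... + a_0` be a monic polynomial of odd degree `r` in `x` whose
coefficients `a_i` are forms in two variables (polynomials in `t`) of degree `2 n (r - i)`, `n ≥ 1`. The
equation `f = 0` defines a curve `C` on the rational ruled surface `F` of degree `2 n`, disjoint from the
section `O` at infinity, and `y² = f` defines a double covering `X` of `F` with the branch curve
`C + O`. It is fibred over the projective line into hyperelliptic curves of genus `g = (r - 1) / 2`, and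
it has the geometric genus `g ^ 2 n - g`. For `r = 3` these are **all elliptic surfaces over the
projective line with a section** (in odd characteristic, in Weierstrass form): `C` is the trigonal
curve of the points of order two.

If `C` is smooth then so is `X`. In general suppose that `C` is geometrically irreducible and has only
singularities of type A, D, E; then `X` denotes the minimal resolution (for `r = 3`: if the equation
is minimal at all places, `X` is the minimal elliptic surface). The second cohomology of `X` is the sum of
the space `T` spanned by the classes of a fibre, of the section at infinity, and of the exceptional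
curves, which are multiplied by `q` and permuted by the Frobenius (`IsPermuted`), and of its orthogonal
complement `W`. The first and third cohomology are zero; so by the trace formula of Grothendieck and
Lefschetz (`IsCohomology`) the trace of `Φ ^ [L : κ]` on `W` is `points - |L| (|L| + 1)`, where
`points` is the number of solutions over `L` of `y² = f(x, t)`, `t` in the projective line. (The
numbers of points of the exceptional curves cancel with the traces on their classes.)

Let `P` be the characteristic polynomial `det (1 - Frobenius T)` on the first cohomology of `C`
(`IsCurvePolynomial`); if `C` is smooth it is the numerator of the zeta function of `C`. The degree of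
`P`, which is also the degree of `P` modulo `2`, is the dimension of `W` (compare the Euler
characteristics of `X`, `F` and `C`).

**Theorem.** If the polynomial `P` modulo `2` is squarefree then the characteristic polynomial of the
Frobenius on `W` is separable, and the Frobenius is semisimple on the whole second cohomology of `X`.

So the semisimplicity of the Frobenius on the surface follows from a condition on the number of points
of a curve modulo `2`. There is no condition on the geometric genus or the slopes.

For example let `q = 3`, `r = 3`, `n = 2` (elliptic `K3` surfaces), `a_2 = t ^ 4 + 2 t ^ 2 + 2 t`,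
`a_1 = t ^ 8 + t ^ 7 + 2 t ^ 5 + 2 t ^ 3 + 2 t ^ 2 + t + 2` and
`a_0 = 2 t ^ 12 + 2 t ^ 9 + t ^ 8 + t ^ 7 + 2 t ^ 6 + 2 t ^ 5 + t ^ 4 + 2 t ^ 3 + 2`. By a computer
count `P = 1 - 3 T + 3 T ^ 2 + 3 T ^ 3 - 14 T ^ 4 + 15 T ^ 5 + 18 T ^ 6 - 67 T ^ 7 + 26 T ^ 8 +
228 T ^ 9 - 615 T ^ 10 + ...`, a polynomial of degree `20` which is squarefree modulo `2`.

The proof. The involution `y ↦ -y` shows that the number of points of `X` over `L` is congruent to that of
the branch curve modulo `2`. So the traces of the powers of the Frobenius on `W` agree modulo `2` with
those on the first cohomology of `C`, and if the roots of `P` modulo `2` are simple this determines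
the reductions of the eigenvalues, because power functions are linearly independent. For smooth
double coverings of projective spaces a similar result is in the starting files
(MP_93fb11_ag CyclicHypersurfaces).
-/

set_option autoImplicit false

namespace Pool.Agent.Results.MP_1fe969_ag.BranchCurves

open Polynomial Module Pool.Agent.R942.ES Pool.Agent.R942.DC

/-- **Semisimplicity of Frobenius on the surfaces `y² = f(x, t)`.** -/
theorem result (κ : Type) [Field κ] [Fintype κ] (h2 : (2 : κ) ≠ 0) (f : Branch κ)
    (E : Type) [Field E] [CharZero E] [IsAlgClosed E]
    (T : Type) [AddCommGroup T] [Module E T] [FiniteDimensional E T] (Ψ : Module.End E T)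
    (hΨ : IsPermuted (Fintype.card κ) Ψ)
    (W : Type) [AddCommGroup W] [Module E W] [FiniteDimensional E W] (Φ : Module.End E W)
    (hC : Pool.Agent.R942.DC.IsCohomology f Φ)
    (P : ℤ[X]) (A : Multiset E) (hP : IsCurvePolynomial f P A)
    (hdim : finrank E W = (P.map (Int.castRingHom (ZMod 2))).natDegree)
    (hsq : Squarefree (P.map (Int.castRingHom (ZMod 2)))) :
    Φ.charpoly.Separable ∧ (total Ψ Φ).IsSemisimple := by
  obtain ⟨h1, h3⟩ := main h2 f hC hP hsq hdim
  exact ⟨h1, semisimple_prod (semisimple_permuted Fintype.card_ne_zero hΨ) h3⟩

end Pool.Agent.Results.MP_1fe969_ag.BranchCurves
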