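import Pool.Agent.R905.RF.MainSS

/-!
# Semisimplicity of Frobenius on the second cohomology of surfaces and the generic point of space
-/

set_option autoImplicit false

namespace Pool.Agent.Results.MP_1fe969_ag.GenericPointOfSpace

open Pool.Agent.R905.RF

/-- Let `F` be a finite field with `q` elements, `K` an algebraic closure of `ℚ_ℓ`, `W` the set of the
numbers in `K` of weight `-2`, `S` a class of varieties with alterations such as the smooth projective
ones, and `k ≥ 1`. The following statements are equivalent:

1. the Jordan blocks of the Frobenius for the eigenvalues of weight 4 on the cohomology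
   `H^3(F_0 𝔸^3, ℚ_ℓ)` of the generic point of affine space over the algebraic closure of `F` have size
   at most `k`: if `e` is in the generalized eigenspace for such an `α` in `H^3(Ū, ℚ_ℓ)`, `U` open in
   `𝔸^3`, then `(φ - α)^k e` vanishes on a smaller nonempty open `U'`. (Weight 4 is the lowest weight
   which occurs in `H^3(Ū, ℚ_ℓ)`; in the formulation below `H_3^{BM}(Ū) = H^3(Ū, ℚ_ℓ(3))`, and the
   eigenvalues are multiplied by `q^{-3}`.)
2. the Jordan blocks for the eigenvalues of weight 2 on `H^2(F_0 X̄, ℚ_ℓ)` have size at most `k`, for all
   irreducible surfaces `X` over `F`;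
3. the Jordan blocks of the Frobenius on `H^2(X̄, ℚ_ℓ)` have size at most `k`, for all irreducible
   surfaces `X` in the class `S`.

For `k = 1` and the smooth projective surfaces, (3) says that the Frobenius is semisimple on the second
cohomology of all smooth projective irreducible surfaces over `F`. -/
theorem result (F : Type) [Field F] [Finite F] (K : Type) [Field K] (T : BorelMoore F K)
    (hT : T.IsHomology) (hF : HypersurfaceModels F) (W : Set K)
    (hW : ∀ α ∈ W, T.LowestWeight α 2 0) (S : Var F → Prop) (hP : T.Pure S W 2 0 2)
    (hS : T.Alterations S 2 0 2) (k : ℕ) (hk : T.Splits S k 2 0 1) :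
    [T.BlocksAtGenericPoint W k (affineSpace F 3) 3 0, T.BlocksOfFunctionFields W k 2 0 2,
      T.Blocks S k 2 0 2].TFAE :=
  BorelMoore.tfae_blocks hT hF hW k 1 hP hS hk

end Pool.Agent.Results.MP_1fe969_ag.GenericPointOfSpace
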