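import Pool.Agent.R940.RtO

/-!
# MP_1fe969_ag: Tate classes in the tensor powers of the second cohomology of a surface

Let `X` be a smooth projective variety of dimension `d` over a field with `q` elements and `U` a
subspace of `H(X)` which is stable under Frobenius and nondegenerate for the Poincaré pairing, `b` its
dimension. For `n ≥ 0` let `t(n)` be the dimension of the eigenspace and `r(n)` the dimension of the
generalised eigenspace of Frobenius on `U ^ (⊗ 2 n)` for the eigenvalue `q ^ (n d)`. By the Künneth
formula `U ^ (⊗ 2 n)` is a part of the cohomology of the product `X ^ (2 n)`, and `t(n)` is the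
dimension of the space of Tate classes in it (for `U` in the middle degree).

* If Frobenius does not act semisimply on `U`, then `√n t(n) < 4 b ^ 2 r(n)` for all `n`
  (`FewTensors`): the proportion of the Tate classes tends to zero.
* If Frobenius acts semisimply on `U`, then `t(n) = r(n)` for all `n` (`AllTensors`).

Surfaces (`d = 2`):

* for `U = H ^ 2(X)`: Frobenius acts semisimply on `H ^ 2(X)` (Q1 for `X`) if and only if there is an `n`
  with `√n t(n) ≥ 4 b ^ 2 r(n)` (`ManyTensors`), that is, one tensor power `H ^ 2(X) ^ (⊗ 2 n)` in
  which a proportion of at least `4 b ^ 2 / √n` of the generalised eigenspace consists of Tate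
  classes;
* for `U` the generalised eigenspace for `q` on `H ^ 2(X)` (the weak form of Q1 for `X`, that is,
  the equality of the order of the pole of the zeta function at `s = 1` and the number of Tate
  classes on `X`): Frobenius acts semisimply on `U` if and only if there is an `n` with
  `√n t(n) ≥ 4 b ^ 2 r(n)`.

Formulation. The Weil cohomology and the varieties are those of the starting files; `F` are the natural
Frobenius endomorphisms. No hypothesis on the weights is used.
-/

open CategoryTheory AlgebraicGeometry

universe u v

namespace Pool.Agent.Results.MP_1fe969_ag.TensorPowersOfH2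

open Module Pool.Agent.H914 Pool.Agent.R937.JB Pool.Agent.R940.Rt VarClass Obj WeilCohomology

variable {k : Type u} [Field k] {𝒱 : VarClass k} {ops : CycleOps 𝒱}

/-- **Tate classes in tensor powers and semisimplicity for surfaces.** -/
theorem result (W : WeilCohomology.{u, v} ops) [IsAlgClosed W.K] (q : ℕ) (F : Frobenius W q) :
    (∀ (X : 𝒱.Obj) (U : Submodule W.K (W.H X)) (hU : IsStable (frob F X) U),
      IsNondegenerate W X U → PartLaw F X U hU) ∧
    (∀ X : 𝒱.Obj, X.dim = 2 → TwoLaw F X ∧ TateLaw F X) :=
  ⟨fun _ _ hU hnd => ⟨fun h n => sub_law hU hnd h n, fun h n => eig_eq_gen h _ n⟩,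
    fun _ hX => ⟨surface_iff hX, surface_weak_iff hX⟩⟩

end Pool.Agent.Results.MP_1fe969_ag.TensorPowersOfH2
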