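import Pool.Agent.R942.ES.Whole

/-!
# Semisimplicity of Frobenius on the second cohomology of elliptic surfaces with a section of prime order

Let `κ` be a finite field with `q` elements, and let `X` be an elliptic surface over the projective
line over `κ`, semistable (all singular fibres are multiplicative), with a section `P` of prime order `ℓ`
different from the characteristic. By Tate it has one of the following equations with the section
`P = (0, 0)` (`HasSection`); here `u`, `v` are forms in two variables without common zeros:

* `ℓ = 2`: `y² = x³ + u x² + v x`, with `u` of degree `2 m` and `v` of degree `4 m`;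
* `ℓ = 3`: `y² + u x y + v y = x³`, with `u` of degree `m` and `v` of degree `3 m`;
* `ℓ = 5`: `y² + (v - u) x y - u v² y = x³ - u v x²`, with `u` and `v` of degree `m`;
* `ℓ = 7`: `y² + (v² + u v - u²) x y + u² v³ (v - u) y = x³ + u² v (v - u) x²`, `u`, `v` of degree `m`.

For `ℓ = 5` and `ℓ = 7` the surface is always semistable, and other prime orders occur only for
constant elliptic curves. The geometric genus of `X` is `m - 1` for `ℓ = 2, 3, 5` and `2 m - 1` for
`ℓ = 7`; so it is arbitrarily large. The singular fibres are those over the zeros of `A B`,

* `A = v`, `B = u² - 4 v`, `A = v`, `B = u³ - 27 v`, `A = u v`, `B = u² - 11 u v - v²`, and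
  `A = u v (u - v)`, `B = u³ - 8 u² v + 5 u v² + v³` for `ℓ = 2, 3, 5, 7`.

Over the zeros of `A` the section `P` meets the singular point of the Weierstrass equation. Let `a` and `b`
be the families of the degrees of the closed points of the projective line at which `A` and `B` are
zero.

The second cohomology of `X` (coefficients extended to an algebraically closed field `E` of
characteristic zero; any `ℓ'`-adic cohomology) is the sum of the space `T` spanned by the classes of the
zero section and of the components of the fibres, which are multiplied by `q` and permuted by the
Frobenius (`IsPermuted`), and of its orthogonal complement `W` (`IsCohomology`).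

**Theorem.** (1) Suppose that (`IsAdmissible`)

* `ℓ = 2`, and there are four or five singular closed fibres, with odd pairwise coprime degrees, or
* `ℓ` is odd, `q ≡ -1` modulo `ℓ`, and there are two, three or four zeros of `A`, and of `B`, with odd
  degrees prime to `ℓ`, pairwise coprime for `A` and for `B`, or
* `ℓ` is odd, `q² ≡ -1` modulo `ℓ`, there are two, three or four zeros of `A`, with odd pairwise coprime
  degrees prime to `ℓ`, and one or two zeros of `B`, the halves of whose degrees are odd, coprime and
  prime to `ℓ`.

Then the Frobenius is semisimple on the whole second cohomology of `X`.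

(2) In general let `R` be the polynomial (`IsLFunction`)
`∏_{v ∣ A} (1 - (q T) ^ deg v) ∏_{v ∣ B} (1 - T ^ deg v) / ((1 - T) (1 - q T)² (1 - q² T))` modulo `ℓ`.
If `R` is squarefree, or, more generally, if the only multiple roots of `R` are `1 / q`, `- 1 / q` and
their multiplicity is at most two (at most `2 + r` for `1 / q`, and less than `ℓ`), then the
Frobenius is semisimple on the whole second cohomology. Here `r` is the dimension of any nondegenerate
space `N` of eigenvectors for `q`, for instance the rank of the group of sections of `X` (and `r = 0`
is allowed).

(3) If all multiplicities of the roots of `R` are less than `ℓ`, and that of `1 / q` is at most `2 + r`,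
then the eigenvalue `q` of the Frobenius is semisimple.

For example let `q = 2`, `ℓ = 3`, `m = 4`, `u = t ^ 4` and `v = t ^ 11 + t ^ 9 + t ^ 7 + t ^ 4 + 1`.
Then `v` is irreducible and vanishes at infinity (as a form of degree `12`), and `u³ - 27 v` is the
product of `t + 1` and an irreducible polynomial of degree `11`. So `a = b = {1, 11}` is admissible, the
geometric genus is `3`, and the dimension of `W` is `20`.
For `q ≡ ± 2` modulo `5` and `ℓ = 5` one can take `v = 1` and any irreducible polynomial `u` of odd
degree `m` prime to `5` such that `u² - 11 u - 1` is irreducible too.

The proof. The number of points of each smooth fibre over an extension `L` is divisible by `ℓ`, since it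
contains a point of order `ℓ`. The same is true for the smooth points of the fibres over the zeros of
`B`; the fibres over the zeros of `A` have `|L|` points. So the traces of all powers of the Frobenius on
`W` are known modulo `ℓ`: they are the power sums of the inverse roots of `R`, and `R` has the degree
`dim W`. If the multiplicities of the roots of `R` are less than `ℓ` this determines the reductions of
the eigenvalues of the Frobenius with their multiplicities (one does not need to know the zeta
functions of the fibres). If all roots are simple the eigenvalues are different. At `± q` one uses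
that a unipotent isometry of a nondegenerate quadratic space of dimension two is trivial, and for an
eigenvalue `β` with the reduction `± q`, `β ≠ ± q`, that `q² / β` is another one. The congruence
for the `L`-function modulo the order of a torsion section is known (C. Hall, for instance); the
results on semisimplicity seem to be new.
-/

set_option autoImplicit false

namespace Pool.Agent.Results.MP_1fe969_ag.TorsionSections

open Polynomial Module Pool.Agent.R942.ES

/-- **Semisimplicity of Frobenius on elliptic surfaces with a section of prime order.** -/
theorem result (κ : Type) [Field κ] [Fintype κ] (S : Surface κ) (hS : HasSection S)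
    (E : Type) [Field E] [CharZero E] [IsAlgClosed E]
    (T : Type) [AddCommGroup T] [Module E T] [FiniteDimensional E T] (Ψ : Module.End E T)
    (hΨ : IsPermuted (Fintype.card κ) Ψ)
    (W : Type) [AddCommGroup W] [Module E W] [FiniteDimensional E W] (Φ : Module.End E W)
    (B : W →ₗ[E] W →ₗ[E] E) (hC : IsCohomology S Φ B) :
    (IsAdmissible (Fintype.card κ) S.ℓ S.a S.b → (total Ψ Φ).IsSemisimple) ∧
    ∀ [Fact S.ℓ.Prime] (R : (ZMod S.ℓ)[X]), IsLFunction S R → ∀ N : Submodule E W,
      IsEigenSpace (Fintype.card κ) Φ B N →
      ((∀ y : AlgebraicClosure (ZMod S.ℓ), 1 < mult R y →
          ((Fintype.card κ : AlgebraicClosure (ZMod S.ℓ)) * y) ^ 2 = 1 ∧ mult R y < S.ℓ ∧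
          ((Fintype.card κ : AlgebraicClosure (ZMod S.ℓ)) * y ≠ 1 → mult R y ≤ 2) ∧
          mult R y ≤ 2 + finrank E N) → (total Ψ Φ).IsSemisimple) ∧
      ((∀ y : AlgebraicClosure (ZMod S.ℓ), mult R y < S.ℓ) →
        (∀ y : AlgebraicClosure (ZMod S.ℓ),
          (Fintype.card κ : AlgebraicClosure (ZMod S.ℓ)) * y = 1 → mult R y ≤ 2 + finrank E N) →
        (total Ψ Φ).maxGenEigenspace (Fintype.card κ) =
          (total Ψ Φ).eigenspace (Fintype.card κ)) := by
  have hT := semisimple_permuted Fintype.card_ne_zero hΨ
  refine ⟨fun h => semisimple_prod hT (semisimple_of_admissible hS hC h), ?_⟩
  intro _ R hR N hN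
  exact ⟨fun h => semisimple_prod hT (semisimple_of_double hS hC N hN.1 hN.2 hR h),
    fun h h' => tate_prod hT (tate_of_small hS hC N hN.1 hN.2 hR h h')⟩

end Pool.Agent.Results.MP_1fe969_ag.TorsionSections
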